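import Pool.Agent.H2.NL.Targets2

/-!
# Row LOC: the local theorem
-/

set_option autoImplicit false

open Matrix Pool.Agent.H64.CC Pool.Agent.H2.NL

namespace Pool.Agent.H64.NLW

/-- the space of the vanishing classes -/
def van {K : Type} [Field K] [CharZero K] {W : Weil K} {m : ℕ} {V : W.Var 0} {L : W.Hom V V}
    {r : ℕ} {T : W.Var m} (S : W.GenericIntersection V L r T) : Submodule K (W.H T) where
  carrier := {u | W.Vanishing S u}
  add_mem' := by
    rintro u v ⟨h1, h2⟩ ⟨h3, h4⟩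
    refine ⟨fun a ha => ?_, ?_⟩
    · by_cases hu : u a = 0
      · refine h3 a fun hv => ha ?_
        rw [Pi.add_apply, hu, hv, add_zero]
      · exact h1 a hu
    · have e1 : W.ap S.down (u + v) = W.ap S.down u + W.ap S.down v := Matrix.mulVec_add _ _ _
      rw [e1, h2, h4, add_zero]
  zero_mem' := ⟨fun a ha => absurd rfl ha, Matrix.mulVec_zero _⟩
  smul_mem' := by
    rintro c u ⟨h1, h2⟩
    refine ⟨fun a ha => h1 a fun hu => ha ?_, ?_⟩
    · rw [Pi.smul_apply, hu, smul_zero]
    · have e1 : W.ap S.down (c • u) = c • W.ap S.down u := Matrix.mulVec_smul _ _ _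
      rw [e1, h2, smul_zero]

theorem pf_LOC (hVAN : T_VAN) (hADA : T_ADA) (hEPS : T_EPS) (hSYS : T_SYS) (hNUM : T_NUM)
    (hPHA : T_PHA) (hCPL : T_CPL) : T_LOC := by
  intro K _ _ W hW V L hL r m T S hno
  obtain ⟨ε, hε, hεε, hεadj, hεV, hεmax⟩ := hEPS K W hW V L hL r m T S
  obtain ⟨-, -, h3, -⟩ := hVAN K W hW V L hL r m T S
  have hρ : (1 : W.Hom T T) - ε ∈ W.cyc T T 0 :=
    (W.cyc T T 0).sub_mem (hW.calculus.one_mem T) hε
  have hρρ : ((1 : W.Hom T T) - ε) * (1 - ε) = 1 - ε := by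
    rw [mul_sub, mul_one, sub_mul, one_mul, hεε, sub_self, sub_zero]
  have hρadj : ((1 : W.Hom T T) - ε)ᵀ * S.powers.form = S.powers.form * (1 - ε) := by
    rw [Matrix.transpose_sub, Matrix.transpose_one, sub_mul, one_mul, hεadj, mul_sub, mul_one]
  have hρdeg : ∀ a b, ((1 : W.Hom T T) - ε) a b ≠ 0 → W.deg T a = W.deg T b := by
    intro a b hab
    have h := hW.calculus.cyc_deg T T 0 _ hρ a b hab
    omega
  have hρU : ∀ u ∈ van S.toGenericIntersection, ((1 : W.Hom T T) - ε) *ᵥ u = u := by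
    intro u hu
    have h := hεV u hu
    have h' : ε *ᵥ u = 0 := h
    rw [Matrix.sub_mulVec, Matrix.one_mulVec, h', sub_zero]
  obtain ⟨n, n', ⟨D⟩⟩ := hADA K (W.rk T) (W.deg T) (W.dim T) S.powers.form (1 - ε) S.odd
    S.powers.form_deg S.powers.form_symm S.powers.form_unit hρρ hρadj hρdeg
    (van S.toGenericIntersection) (fun u hu => hu.1) hρU (fun u hu hv => h3 u hu hv)
  have hsys := hSYS K W hW V L hL r m T S ε hε hεε hεadj hεV hεmax
    (van S.toGenericIntersection) (fun u => Iff.rfl) n n' D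
  by_cases hev : ∃ y : Fin n', D.F.o (Sum.inr y) = false
  · exfalso
    obtain ⟨l, hl, e, he, hee, he0, hnum⟩ := hNUM K (Fin n) (Fin n') D.F _ hsys hev
    rw [Fintype.card_fin, Fintype.card_fin] at hl
    refine hPHA K W hW m T S.powers (1 - ε) hρ hρρ (van S.toGenericIntersection) n n' D l
      ⟨e, he, hee, he0, hnum⟩ (hno l ?_)
    have := D.rank_le
    omega
  · refine hCPL K W hW V L hL r m T S ε hε hεV fun a b hab => ?_
    rw [← D.ji, Matrix.mul_apply] at hab
    obtain ⟨c, -, hc⟩ := Finset.exists_ne_zero_of_sum_ne_zero hab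
    have hj : D.j a c ≠ 0 := left_ne_zero_of_mul hc
    have ho : D.F.o c = true := by
      rcases c with p | y
      · exact hsys.o_V p
      · cases hy : D.F.o (Sum.inr y) with
        | true => rfl
        | false => exact absurd ⟨y, hy⟩ hev
    rw [D.o_eq] at ho
    rw [D.j_deg a c hj]
    exact of_decide_eq_true ho

end Pool.Agent.H64.NLW
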