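import Pool.Agent.H64.NLW.Sign
import Pool.Agent.H64.NLW.LOC

/-!
# The sign conjecture modulo numerical equivalence for generic complete intersections
-/

set_option autoImplicit false

open Matrix Pool.Agent.H64.CC Pool.Agent.H2.NL

namespace Pool.Agent.H64.NLW

section

variable {K : Type} [Field K] [CharZero K] (W : Weil K)

theorem even_comm {n m : ℕ} {X : W.Var n} {Y : W.Var m} (f : W.Hom X Y) (s : ℤ)
    (h : W.HasDeg s f) : W.even Y * f = f * W.even X := by
  ext b a
  unfold Weil.even
  rw [Matrix.diagonal_mul, Matrix.mul_diagonal]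
  by_cases hf : f b a = 0
  · rw [hf, mul_zero, zero_mul]
  · have h1 := h b a hf
    have h2 : Even (W.deg Y b) ↔ Even (W.deg X a) := by
      constructor
      · intro he
        have h3 : Even ((W.deg Y b : ℕ) : ℤ) := by exact_mod_cast he
        rw [h1] at h3
        have h4 : Even ((W.deg X a : ℕ) : ℤ) := by
          rcases h3 with ⟨k, hk⟩
          exact ⟨k - s, by omega⟩
        exact_mod_cast h4
      · intro he
        have h3 : Even ((W.deg X a : ℕ) : ℤ) := by exact_mod_cast he
        have h4 : Even ((W.deg Y b : ℕ) : ℤ) := by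
          rw [h1]
          rcases h3 with ⟨k, hk⟩
          exact ⟨k + s, by omega⟩
        exact_mod_cast h4
    by_cases he : Even (W.deg X a)
    · rw [if_pos he, if_pos (h2.2 he), one_mul, mul_one]
    · rw [if_neg he, if_neg (fun h5 => he (h2.1 h5)), zero_mul, mul_zero]

theorem str_eq_two {n : ℕ} {X : W.Var n} (z : W.Hom X X) :
    W.str z = 2 * (W.even X * z).trace - z.trace := by
  unfold Weil.str
  rw [Matrix.trace, Matrix.trace, Finset.mul_sum, ← Finset.sum_sub_distrib]
  refine Finset.sum_congr rfl fun a _ => ?_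
  rw [Matrix.diag_apply, Matrix.diag_apply]
  have h4 : (W.even X * z) a a = (if Even (W.deg X a) then 1 else 0) * z a a := by
    unfold Weil.even
    rw [Matrix.diagonal_mul]
  rw [h4]
  by_cases he : Even (W.deg X a)
  · rw [if_pos he, he.neg_one_pow]
    ring
  · rw [if_neg he, (Nat.not_even_iff_odd.1 he).neg_one_pow]
    ring

theorem even_even {n : ℕ} (X : W.Var n) : W.even X * W.even X = W.even X := by
  unfold Weil.even
  rw [Matrix.diagonal_mul_diagonal]
  congr 1
  funext a
  by_cases he : Even (W.deg X a)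
  · rw [if_pos he, one_mul]
  · rw [if_neg he, zero_mul]

theorem str_even {n : ℕ} {X : W.Var n} (z : W.Hom X X) :
    W.str (W.even X * z) = (W.even X * z).trace := by
  rw [str_eq_two, ← mul_assoc, even_even]
  ring

/-- the alternating trace is cyclic -/
theorem str_comm {n : ℕ} {X : W.Var n} (x y : W.Hom X X) (hx : W.even X * x = x * W.even X) :
    W.str (x * y) = W.str (y * x) := by
  rw [str_eq_two, str_eq_two, ← mul_assoc, hx, mul_assoc, Matrix.trace_mul_comm x,
    mul_assoc, Matrix.trace_mul_comm x y]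

theorem pj_comm {n m : ℕ} {X : W.Var n} {Y : W.Var m} (f : W.Hom X Y) (h : W.HasDeg 0 f)
    (j : ℕ) : W.pj Y j * f = f * W.pj X j := by
  ext b a
  unfold Weil.pj
  rw [Matrix.diagonal_mul, Matrix.mul_diagonal]
  by_cases hf : f b a = 0
  · rw [hf, mul_zero, zero_mul]
  · have h1 := h b a hf
    have h2 : W.deg Y b = W.deg X a := by omega
    rw [h2, mul_comm]

theorem pj_even_comm {n : ℕ} (X : W.Var n) (j : ℕ) :
    W.even X * W.pj X j = W.pj X j * W.even X := by
  unfold Weil.even Weil.pj
  rw [Matrix.diagonal_mul_diagonal, Matrix.diagonal_mul_diagonal]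
  congr 1
  funext a
  exact mul_comm _ _

end

section

variable {K : Type} [Field K] [CharZero K] (W : Weil K) (hW : W.Theory)

theorem str_add {n : ℕ} {X : W.Var n} (x y : W.Hom X X) : W.str (x + y) = W.str x + W.str y := by
  rw [str_eq_two, str_eq_two, str_eq_two, mul_add, Matrix.trace_add, Matrix.trace_add]
  ring

theorem str_smul {n : ℕ} {X : W.Var n} (s : K) (x : W.Hom X X) :
    W.str (s • x) = s * W.str x := by
  rw [str_eq_two, str_eq_two, Matrix.mul_smul, Matrix.trace_smul, Matrix.trace_smul,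
    smul_eq_mul, smul_eq_mul]
  ring

theorem str_sum {n : ℕ} {X : W.Var n} {ι : Type} (s : Finset ι) (x : ι → W.Hom X X) :
    W.str (∑ i ∈ s, x i) = ∑ i ∈ s, W.str (x i) := by
  classical
  induction s using Finset.induction_on with
  | empty =>
    rw [Finset.sum_empty, Finset.sum_empty]
    unfold Weil.str
    refine Finset.sum_eq_zero fun a _ => ?_
    rw [Matrix.zero_apply, mul_zero]
  | insert i s hi ih => rw [Finset.sum_insert hi, Finset.sum_insert hi, str_add, ih]

include hW in
theorem even_eq_sum {n : ℕ} (X : W.Var n) :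
    W.even X = ∑ i ∈ (Finset.range (2 * W.dim X + 1)).filter (fun i => Even i), W.pj X i := by
  ext a b
  rw [Matrix.sum_apply]
  by_cases hab : a = b
  · subst hab
    simp only [Weil.even, Weil.pj, Matrix.diagonal_apply_eq]
    rw [Finset.sum_ite_eq]
    have h1 := hW.calculus.deg_le X a
    by_cases he : Even (W.deg X a)
    · rw [if_pos he, if_pos]
      rw [Finset.mem_filter, Finset.mem_range]
      exact ⟨by omega, he⟩
    · rw [if_neg he, if_neg]
      rw [Finset.mem_filter]
      exact fun h => he h.2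
  · unfold Weil.even Weil.pj
    rw [Matrix.diagonal_apply_ne _ hab]
    exact (Finset.sum_eq_zero fun i _ => Matrix.diagonal_apply_ne _ hab).symm

include hW in
/-- the Künneth conjecture modulo numerical equivalence implies the sign conjecture modulo numerical
equivalence -/
theorem numCplus_of_numC {n : ℕ} (X : W.Var n) (h : W.NumC X) : W.NumCplus X := by
  choose γ hγ hg using h
  refine ⟨∑ i ∈ (Finset.range (2 * W.dim X + 1)).filter (fun i => Even i), γ i,
    (W.cyc X X 0).sum_mem fun i _ => hγ i, fun f hf => ?_⟩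
  show W.str ((∑ i ∈ (Finset.range (2 * W.dim X + 1)).filter (fun i => Even i), γ i) * f) =
    (W.even X * f).trace
  rw [← str_even, even_eq_sum W hW X, Finset.sum_mul, Finset.sum_mul, str_sum, str_sum]
  exact Finset.sum_congr rfl fun i _ => hg i f hf

theorem str_pj {n : ℕ} {X : W.Var n} (j : ℕ) (z : W.Hom X X) :
    W.str (W.pj X j * z) = (-1) ^ j * (W.pj X j * z).trace := by
  unfold Weil.str
  rw [Matrix.trace, Finset.mul_sum]
  refine Finset.sum_congr rfl fun a _ => ?_
  rw [Matrix.diag_apply]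
  have h4 : (W.pj X j * z) a a = (if W.deg X a = j then 1 else 0) * z a a := by
    unfold Weil.pj
    rw [Matrix.diagonal_mul]
  rw [h4]
  by_cases he : W.deg X a = j
  · rw [if_pos he, he]
  · rw [if_neg he, zero_mul, mul_zero, mul_zero]

theorem numC_of_c {n : ℕ} (X : W.Var n) (h : W.C X) : W.NumC X :=
  fun i => ⟨W.pj X i, h i, fun _ _ => rfl⟩

end

/-- **The Künneth projectors of a generic complete intersection of odd dimension are numerically
equivalent to classes of cycles.** -/
theorem numC_generic (hVAN : T_VAN) (hSCA : T_SCA) (hADA : T_ADA) (hEPS : T_EPS) (hSYS : T_SYS)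
    {K : Type} [Field K] [CharZero K] (W : Weil K) (hW : W.Theory)
    {V : W.Var 0} {L : W.Hom V V} (hL : L ∈ W.Lef V) {r m : ℕ} {T : W.Var m}
    (S : W.Symplectic V L r T) (j : ℕ) : ∃ γ ∈ W.cyc T T 0, ∀ f ∈ W.cyc T T 0,
      W.str (W.comp γ f) = W.str (W.comp (W.pj T j) f) := by
  obtain ⟨ε, hε, hεε, hεadj, hεV, hεmax⟩ := hEPS K W hW V L hL r m T S
  obtain ⟨-, -, h3, -⟩ := hVAN K W hW V L hL r m T S
  have hρ : (1 : W.Hom T T) - ε ∈ W.cyc T T 0 :=
    (W.cyc T T 0).sub_mem (hW.calculus.one_mem T) hε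
  have hρρ : ((1 : W.Hom T T) - ε) * (1 - ε) = 1 - ε := by
    rw [mul_sub, mul_one, sub_mul, one_mul, hεε, sub_self, sub_zero]
  have hρadj : ((1 : W.Hom T T) - ε)ᵀ * S.powers.form = S.powers.form * (1 - ε) := by
    rw [Matrix.transpose_sub, Matrix.transpose_one, sub_mul, one_mul, hεadj, mul_sub, mul_one]
  have hρdeg : ∀ a b, ((1 : W.Hom T T) - ε) a b ≠ 0 → W.deg T a = W.deg T b := by
    intro a b hab
    have h := hW.calculus.cyc_deg T T 0 _ hρ a b hab
    omega
  have hρU : ∀ u ∈ van S.toGenericIntersection, ((1 : W.Hom T T) - ε) *ᵥ u = u := by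
    intro u hu
    have h := hεV u hu
    have h' : ε *ᵥ u = 0 := h
    rw [Matrix.sub_mulVec, Matrix.one_mulVec, h', sub_zero]
  obtain ⟨n, n', ⟨D⟩⟩ := hADA K (W.rk T) (W.deg T) (W.dim T) S.powers.form (1 - ε) S.odd
    S.powers.form_deg S.powers.form_symm S.powers.form_unit hρρ hρadj hρdeg
    (van S.toGenericIntersection) (fun u hu => hu.1) hρU (fun u hu hv => h3 u hu hv)
  have hsys := hSYS K W hW V L hL r m T S ε hε hεε hεadj hεV hεmax
    (van S.toGenericIntersection) (fun u => Iff.rfl) n n' D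
  -- the even part of `1 - ε`
  have hE : (W.even T * (1 - ε)).trace =
      ∑ c : Fin n ⊕ Fin n', (if D.F.o c = true then (0 : K) else 1) := by
    have e1 : (W.even T * (1 - ε)).trace = (W.even T * (D.j * D.i)).trace := by rw [D.ji]
    rw [e1, ← Matrix.mul_assoc, Matrix.trace_mul_comm, Matrix.trace]
    refine Finset.sum_congr rfl fun c _ => ?_
    rw [Matrix.diag_apply, Matrix.mul_apply]
    have hterm : ∀ a, D.i c a * (W.even T * D.j) a c =
        (if D.F.o c = true then (0 : K) else 1) * (D.i c a * D.j a c) := by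
      intro a
      have h4 : (W.even T * D.j) a c = (if Even (W.deg T a) then 1 else 0) * D.j a c := by
        unfold Weil.even
        rw [Matrix.diagonal_mul]
      rw [h4]
      by_cases hj : D.j a c = 0
      · rw [hj, mul_zero, mul_zero, mul_zero]
      · have h5 := D.j_deg a c hj
        have h6 := D.o_eq c
        rw [← h5] at h6
        by_cases he : Even (W.deg T a)
        · have h7 : D.F.o c = false := by
            rw [h6]
            exact decide_eq_false (Nat.not_odd_iff_even.2 he)
          rw [if_pos he, h7]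
          simp
        · have h7 : D.F.o c = true := by
            rw [h6]
            exact decide_eq_true (Nat.not_even_iff_odd.1 he)
          rw [if_neg he, h7]
          simp
    rw [Finset.sum_congr rfl fun a _ => hterm a, ← Finset.mul_sum]
    have h8 : ∑ a, D.i c a * D.j a c = (D.i * D.j) c c := (Matrix.mul_apply).symm
    rw [h8, D.ij, Matrix.one_apply_eq, mul_one]
  have hP : (W.pj T j * (1 - ε)).trace =
      ∑ c : Fin n ⊕ Fin n', (if D.dg c = j then (1 : K) else 0) := by
    have e1 : (W.pj T j * (1 - ε)).trace = (W.pj T j * (D.j * D.i)).trace := by rw [D.ji]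
    rw [e1, ← Matrix.mul_assoc, Matrix.trace_mul_comm, Matrix.trace]
    refine Finset.sum_congr rfl fun c _ => ?_
    rw [Matrix.diag_apply, Matrix.mul_apply]
    have hterm : ∀ a, D.i c a * (W.pj T j * D.j) a c =
        (if D.dg c = j then (1 : K) else 0) * (D.i c a * D.j a c) := by
      intro a
      have h4 : (W.pj T j * D.j) a c = (if W.deg T a = j then 1 else 0) * D.j a c := by
        unfold Weil.pj
        rw [Matrix.diagonal_mul]
      rw [h4]
      by_cases hj : D.j a c = 0
      · rw [hj, mul_zero, mul_zero, mul_zero]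
      · rw [D.j_deg a c hj]
        ring
    rw [Finset.sum_congr rfl fun a _ => hterm a, ← Finset.mul_sum]
    have h8 : ∑ a, D.i c a * D.j a c = (D.i * D.j) c c := (Matrix.mul_apply).symm
    rw [h8, D.ij, Matrix.one_apply_eq, mul_one]
  have htr : ((1 : W.Hom T T) - ε).trace = ∑ c : Fin n ⊕ Fin n', (1 : K) := by
    have e1 : ((1 : W.Hom T T) - ε).trace = (D.j * D.i).trace := by rw [D.ji]
    rw [e1, Matrix.trace_mul_comm, D.ij, Matrix.trace_one]
    simp
  obtain ⟨s, hs⟩ : ∃ s : ℚ, W.str (W.pj T j * (1 - ε)) = (s : K) := by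
    refine ⟨(-1) ^ j * ∑ c : Fin n ⊕ Fin n', (if D.dg c = j then 1 else 0), ?_⟩
    rw [str_pj, hP]
    push_cast
    congr 1
    refine Finset.sum_congr rfl fun c _ => ?_
    split_ifs <;> simp
  obtain ⟨t, ht, ht0⟩ : ∃ t : ℤ, W.str ((1 : W.Hom T T) - ε) = (t : K) ∧ t ≠ 0 := by
    refine ⟨∑ c : Fin n ⊕ Fin n', (if D.F.o c = true then -1 else 1), ?_, ?_⟩
    · rw [str_eq_two, hE, htr, Finset.mul_sum, ← Finset.sum_sub_distrib]
      push_cast
      refine Finset.sum_congr rfl fun c _ => ?_
      by_cases ho : D.F.o c = true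
      · rw [if_pos ho, if_pos ho]
        ring
      · rw [if_neg ho, if_neg ho]
        ring
    · rw [Fintype.sum_sum_type]
      have h1 : ∑ p : Fin n, (if D.F.o (Sum.inl p) = true then (-1 : ℤ) else 1) = -(n : ℤ) := by
        rw [Finset.sum_congr rfl fun p _ => if_pos (hsys.o_V p)]
        simp
      have h2 : ∑ y : Fin n', (if D.F.o (Sum.inr y) = true then (-1 : ℤ) else 1) ≤ (n' : ℤ) := by
        have h4 : ∑ y : Fin n', (if D.F.o (Sum.inr y) = true then (-1 : ℤ) else 1) ≤
            ∑ _y : Fin n', (1 : ℤ) := by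
          refine Finset.sum_le_sum fun y _ => ?_
          by_cases ho : D.F.o (Sum.inr y) = true
          · rw [if_pos ho]
            norm_num
          · rw [if_neg ho]
        refine h4.trans ?_
        simp
      have h5 := hsys.large
      rw [Fintype.card_fin, Fintype.card_fin] at h5
      have h6 : n' ≤ 2 * n' ^ 2 + n' := by omega
      have h7 : (n' : ℤ) < (n : ℤ) := by exact_mod_cast (h6.trans_lt h5)
      rw [h1]
      intro h8
      omega
  -- facts on `up`, `down`
  have hEV : W.even V ∈ W.cyc V V 0 :=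
    cplus_of_c (toTheory W hW) V fun i => hW.katzMessing V i
  have hVj : W.pj V j ∈ W.cyc V V 0 := hW.katzMessing V j
  have hPρ : W.pj T j * (1 - ε) = (1 - ε) * W.pj T j :=
    pj_comm W _ (hW.calculus.cyc_deg T T 0 _ hρ) j
  have hEε : W.even T * ε = ε * W.even T := even_comm W ε 0 (hW.calculus.cyc_deg T T 0 ε hε)
  have hEρ : W.even T * (1 - ε) = (1 - ε) * W.even T :=
    even_comm W _ 0 (hW.calculus.cyc_deg T T 0 _ hρ)
  have hkill : ∀ c : W.Hom V V, ∀ u, W.Vanishing S.toGenericIntersection u →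
      W.ap (W.comp (W.comp S.up c) S.down) u = 0 := by
    intro c u hu
    have h1 : S.down *ᵥ u = 0 := hu.2
    show (S.up * c * S.down) *ᵥ u = 0
    rw [← Matrix.mulVec_mulVec, h1, Matrix.mulVec_zero]
  have hεc : ∃ c ∈ W.cyc V V (-(r : ℤ)), ε = W.comp (W.comp S.up c) S.down := by
    obtain ⟨q, c, hc, hq⟩ := hSCA K W hW V L hL r m T S ε hε
    obtain ⟨v, hv0, hv1, hv2⟩ := S.vanishing
    have h1 : W.ap ε v = 0 := hεV v ⟨hv1, hv2⟩
    have h2 := hkill c v ⟨hv1, hv2⟩
    have h4 : (q : K) • v = 0 := by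
      have h5 : W.ap ε v = (q : K) • v + W.ap (W.comp (W.comp S.up c) S.down) v := by
        rw [hq]
        show ((q : K) • (1 : W.Hom T T) + W.comp (W.comp S.up c) S.down) *ᵥ v = _
        rw [Matrix.add_mulVec, Matrix.smul_mulVec, Matrix.one_mulVec]
        rfl
      rw [h1, h2, add_zero] at h5
      exact h5.symm
    have h6 : (q : K) = 0 := (smul_eq_zero.1 h4).resolve_right hv0
    refine ⟨c, hc, ?_⟩
    rw [hq]
    show (q : K) • (1 : W.Hom T T) + _ = _
    rw [h6, zero_smul, zero_add]
  obtain ⟨cε, hcε, hεeq⟩ := hεc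
  have hup : W.pj T j * S.up = S.up * W.pj V j := pj_comm W S.up S.up_deg j
  have hγ0 : W.pj T j * ε ∈ W.cyc T T 0 := by
    have h1 : W.pj T j * ε = W.comp (W.comp S.up (W.comp (W.pj V j) cε)) S.down := by
      rw [hεeq]
      show W.pj T j * (S.up * cε * S.down) = S.up * (W.pj V j * cε) * S.down
      rw [← Matrix.mul_assoc, ← Matrix.mul_assoc, hup]
      simp only [Matrix.mul_assoc]
    rw [h1]
    refine S.restrict _ ?_
    have h2 := hW.calculus.comp_mem V V V (-(r : ℤ)) 0 cε hcε (W.pj V j) hVj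
    rw [add_zero] at h2
    exact h2
  refine ⟨W.pj T j * ε + (s / (t : ℚ)) • (1 - ε),
    (W.cyc T T 0).add_mem hγ0 ((W.cyc T T 0).smul_mem _ hρ), fun f hf => ?_⟩
  obtain ⟨q, c, hc, hq⟩ := hSCA K W hW V L hL r m T S f hf
  obtain ⟨f', hf'⟩ : ∃ f', f' = W.comp (W.comp S.up c) S.down := ⟨_, rfl⟩
  have hf'mem : f' ∈ W.cyc T T 0 := by
    rw [hf']
    exact S.restrict c hc
  have hfe : f = (q : K) • (1 : W.Hom T T) + f' := by
    rw [hq, hf']
    rfl
  have hz1 : W.str (f' * (1 - ε)) = 0 := by
    refine hεmax f' hf'mem ?_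
    rw [hf']
    exact hkill c
  have hz2 : W.str (W.pj T j * (1 - ε) * f') = 0 := by
    have h1 : W.pj T j * f' = W.comp (W.comp S.up (W.comp (W.pj V j) c)) S.down := by
      rw [hf']
      show W.pj T j * (S.up * c * S.down) = S.up * (W.pj V j * c) * S.down
      rw [← Matrix.mul_assoc, ← Matrix.mul_assoc, hup]
      simp only [Matrix.mul_assoc]
    have h2 : W.pj T j * f' ∈ W.cyc T T 0 := by
      rw [h1]
      refine S.restrict _ ?_
      have h3 := hW.calculus.comp_mem V V V (-(r : ℤ)) 0 c hc (W.pj V j) hVj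
      rw [add_zero] at h3
      exact h3
    have h4 : W.str (W.pj T j * f' * (1 - ε)) = 0 := by
      refine hεmax _ h2 ?_
      rw [h1]
      exact hkill _
    rw [hPρ, mul_assoc, str_comm W (1 - ε) _ hEρ]
    exact h4
  have hs1 : W.str ((1 - ε) * f') = 0 := by
    rw [str_comm W (1 - ε) f' hEρ]
    exact hz1
  show W.str ((W.pj T j * ε + (s / (t : ℚ)) • (1 - ε)) * f) = W.str (W.pj T j * f)
  have hrat : (s / (t : ℚ)) • ((1 : W.Hom T T) - ε) = ((s : K) / (t : K)) • (1 - ε) := by
    ext a a'
    rw [Matrix.smul_apply, Matrix.smul_apply, Rat.smul_def, smul_eq_mul]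
    push_cast
    rfl
  rw [add_mul, str_add, hrat, Matrix.smul_mul, str_smul, mul_assoc]
  have h1 : W.str ((1 - ε) * f) = (q : K) * (t : K) := by
    rw [hfe, mul_add, str_add, hs1, add_zero, Matrix.mul_smul, mul_one, str_smul, ht]
  have h2 : W.str (W.pj T j * f) = W.str (W.pj T j * (ε * f)) + (q : K) * (s : K) := by
    have h4 : W.pj T j * f = W.pj T j * (ε * f) + W.pj T j * (1 - ε) * f := by
      rw [mul_assoc, sub_mul, one_mul, mul_sub]
      abel
    rw [h4, str_add]
    congr 1
    rw [hfe, mul_add, str_add, hz2, add_zero, Matrix.mul_smul, mul_one, str_smul, hs]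
  rw [h1, h2]
  have ht' : (t : K) ≠ 0 := by exact_mod_cast ht0
  field_simp

end Pool.Agent.H64.NLW
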