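import Pool.Agent.H1.NL.PAR
import Pool.Agent.H10.NL.BLK
import Pool.Agent.H10.NL.STR
import Pool.Agent.H14.NL.CPW
import Pool.Agent.H14.NL.NNN
import Pool.Agent.H16.NL.PHA
import Pool.Agent.H16.NL.SYS
import Pool.Agent.H17.NL.OPG
import Pool.Agent.H17.NL.PSW
import Pool.Agent.H18.NL.COM
import Pool.Agent.H18.NL.EQT
import Pool.Agent.H18.NL.HZR
import Pool.Agent.H18.NL.MUL
import Pool.Agent.H2.NLR.PFA
import Pool.Agent.H26.NL.OPJ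
import Pool.Agent.H30.NL.HYB
import Pool.Agent.H31.NL.NUM
import Pool.Agent.H32.NL.CSY
import Pool.Agent.H32.NL.POS
import Pool.Agent.H32.NL.REV
import Pool.Agent.H33.NL.ADA
import Pool.Agent.H33.NL.NIL
import Pool.Agent.H36.NL.DER
import Pool.Agent.H36.NL.UNI
import Pool.Agent.H39.NL.CPL
import Pool.Agent.H4.NL.TRP
import Pool.Agent.H43.NIL.PFB
import Pool.Agent.H44.NL.MLT
import Pool.Agent.H44.NL.RTR
import Pool.Agent.H44.NL.SYM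
import Pool.Agent.H45.NL.ADJ
import Pool.Agent.H45.NL.EPS
import Pool.Agent.H45.NL.SCA
import Pool.Agent.H47.NL.TRC
import Pool.Agent.H48.NL.MLG
import Pool.Agent.H48.NL.ZTR
import Pool.Agent.H49.NL.IDM
import Pool.Agent.H49.NL.IDS
import Pool.Agent.H51.NL.CAL
import Pool.Agent.H64.NLW.LOC
import Pool.Agent.H65.NL.EIG
import Pool.Agent.H65.NL.KEY
import Pool.Agent.H65.NL.SDM
import Pool.Agent.H7.NL.WTS
import Pool.Agent.H70.NL.HTE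
import Pool.Agent.H70.NL.REC
import Pool.Agent.H79.NIL.FTT
import Pool.Agent.H79.NIL.MCC
import Pool.Agent.H79.NIL.PTR
import Pool.Agent.H79.NIL.TRF
import Pool.Agent.H90.NL.VAN

/-!
# The rows, composed
-/

set_option autoImplicit false

open Pool.Agent.H2.NL

namespace Pool.Agent.H64.NLW

theorem r_HYB : T_HYB := Pool.Agent.H30.NL.pf_HYB

theorem r_ADA : T_ADA := Pool.Agent.H33.NL.pf_ADA r_HYB

theorem r_ADJ : T_ADJ := Pool.Agent.H45.NL.pf_ADJ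

theorem r_BLK : T_BLK := Pool.Agent.H10.NL.pf_BLK

theorem r_PFA : T_PFA := Pool.Agent.H2.NLR.pf_PFA

theorem r_PFB : T_PFB := Pool.Agent.H43.NIL.pf_PFB

theorem r_TRF : T_TRF := Pool.Agent.H79.NIL.pf_TRF r_PFA r_PFB

theorem r_CAL : T_CAL := Pool.Agent.H51.NL.pf_CAL r_TRF

theorem r_COM : T_COM := Pool.Agent.H18.NL.pf_COM

theorem r_VAN : T_VAN := Pool.Agent.H90.NL.pf_VAN

theorem r_SCA : T_SCA := Pool.Agent.H45.NL.pf_SCA r_VAN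

theorem r_CPL : T_CPL := Pool.Agent.H39.NL.pf_CPL r_VAN r_SCA

theorem r_IDS : T_IDS := Pool.Agent.H49.NL.pf_IDS

theorem r_OPG : T_OPG := Pool.Agent.H17.NL.pf_OPG

theorem r_CPW : T_CPW := Pool.Agent.H14.NL.CPW.pf_CPW r_IDS r_OPG

theorem r_CSY : T_CSY := Pool.Agent.H32.NL.CSY.pf_CSY

theorem r_PSW : T_PSW := Pool.Agent.H17.NL.pf_PSW

theorem r_DER : T_DER := Pool.Agent.H36.NL.pf_DER r_PSW

theorem r_EIG : T_EIG := Pool.Agent.H65.NL.pf_EIG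

theorem r_RTR : T_RTR := Pool.Agent.H44.NL.pf_RTR

theorem r_FTT : T_FTT := Pool.Agent.H79.NIL.pf_FTT

theorem r_EPS : T_EPS := Pool.Agent.H45.NL.pf_EPS r_VAN r_SCA r_ADJ r_RTR r_FTT

theorem r_EQT : T_EQT := Pool.Agent.H18.NL.pf_EQT

theorem r_HTE : T_HTE := Pool.Agent.H70.NL.pf_HTE

theorem r_HZR : T_HZR := Pool.Agent.H18.NL.pf_HZR r_DER

theorem r_MLG : T_MLG := Pool.Agent.H48.NL.pf_MLG r_IDS r_OPG

theorem r_IDM : T_IDM := Pool.Agent.H49.NL.pf_IDM r_MLG r_FTT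

theorem r_MUL : T_MUL := Pool.Agent.H18.NL.pf_MUL

theorem r_UNI : T_UNI := Pool.Agent.H36.NL.pf_UNI

theorem r_PTR : T_PTR := Pool.Agent.H79.NIL.pf_PTR

theorem r_PAR : T_PAR := Pool.Agent.H1.NL.pf_PAR

theorem r_WTS : T_WTS := Pool.Agent.H7.NL.pf_WTS

theorem r_TRC : T_TRC := Pool.Agent.H47.NL.pf_TRC

theorem r_MLT : T_MLT := Pool.Agent.H44.NL.pf_MLT r_EQT

theorem r_SDM : T_SDM := Pool.Agent.H65.NL.pf_SDM

theorem r_KEY : T_KEY := Pool.Agent.H65.NL.pf_KEY r_MUL r_UNI r_PTR r_PAR r_COM r_WTS r_BLK r_TRC r_MLT r_SDM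

theorem r_SYS : T_SYS := Pool.Agent.H16.NL.pf_SYS r_VAN r_SCA r_CAL r_PFA r_PFB

theorem r_POS : T_POS := Pool.Agent.H32.NL.POS.pf_POS

theorem r_REV : T_REV := Pool.Agent.H32.NL.REV.pf_REV

theorem r_MCC : T_MCC := Pool.Agent.H79.NIL.pf_MCC

theorem r_NNN : T_NNN := Pool.Agent.H14.NL.NNN.pf_NNN

theorem r_STR : T_STR := Pool.Agent.H10.NL.pf_STR r_HZR r_MCC r_HTE r_NNN r_KEY r_MUL r_UNI

theorem r_REC : T_REC := Pool.Agent.H70.NL.REC.pf_REC r_POS r_CSY r_REV r_STR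

theorem r_SYM : T_SYM := Pool.Agent.H44.NL.pf_SYM

theorem r_TRP : T_TRP := Pool.Agent.H4.NL.pf_TRP

theorem r_ZTR : T_ZTR := Pool.Agent.H48.NL.pf_ZTR r_POS r_CSY r_REV r_PSW

theorem r_NUM : T_NUM := Pool.Agent.H31.NL.NUM.pf_NUM r_SDM r_REC r_SYM r_TRP r_ZTR r_EIG r_MLG r_IDM

theorem r_OPJ : T_OPJ := Pool.Agent.H26.NL.pf_OPJ

theorem r_PHA : T_PHA := Pool.Agent.H16.NL.pf_PHA r_PFB r_OPJ r_IDS r_OPG

theorem r_LOC : T_LOC := Pool.Agent.H64.NLW.pf_LOC r_VAN r_ADA r_EPS r_SYS r_NUM r_PHA r_CPL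

theorem r_NIL : T_NIL := Pool.Agent.H33.NL.pf_NIL

end Pool.Agent.H64.NLW
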