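import Pool.Agent.H64.NLW.Final2
import Pool.Agent.H64.NLW.Uncond
import Pool.Agent.H64.NLW.Rows

/-!
# The local form
-/

set_option autoImplicit false

open Matrix Pool.Agent.H64.CC Pool.Agent.H2.NL

namespace Pool.Agent.H64.NLW

/-- the local form of the theorem -/
theorem local_form {K : Type} [Field K] [CharZero K] (W : Weil K) (hW : W.Theory)
    {V : W.Var 0} {L : W.Hom V V} (hL : L ∈ W.Lef V) {r m : ℕ} {T : W.Var m}
    (S : W.Symplectic V L r T) :
    List.TFAE [
      W.Cplus T,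
      ∀ n : ℕ, W.NumCplus (S.powers.pow n),
      ∀ n : ℕ, W.Nilpotence (S.powers.pow n),
      ∀ n : ℕ, 2 * n ≤ W.rk T + 2 → W.NoPhantom (S.powers.pow n)] ∧
    (Nonempty (W.Transposition V) → 1 ≤ r → List.TFAE [
      W.Cplus T,
      ∀ j < W.dim T, Even j → W.LeftInverse V L r j,
      ∀ j < W.dim T, Even j → W.NumInjective V L r j]) := by
  refine ⟨?_, ?_⟩
  · have h0 := loc_tfae r_CPW r_NIL r_LOC W hW hL S
    tfae_have 1 → 2 := fun h n =>
      numCplus_of_cplus W (S.powers.pow n) (r_CPW K W hW m T S.powers h n)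
    tfae_have 2 → 3 := fun h n => nilpotence_of_numCplus W hW (S.powers.pow n) (h n)
    tfae_have 1 ↔ 3 := h0.out 0 1
    tfae_have 1 ↔ 4 := h0.out 0 2
    tfae_finish
  · rintro ⟨t⟩ hr
    have h0 := loc_tfae2 r_CPW r_NIL r_LOC W hW t hL hr S
    tfae_have 1 ↔ 2 := h0.out 0 4
    tfae_have 1 ↔ 3 := h0.out 0 5
    tfae_finish

end Pool.Agent.H64.NLW
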