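import Pool.Agent.H64.NLW.Final

set_option autoImplicit false

/-!
# Nilpotence of numerically trivial correspondences and the Lefschetz standard conjecture in
characteristic p: the statement, from the rows
-/

namespace Pool.Agent.H64.NLW

open Pool.Agent.H64.CC Pool.Agent.H2.NL Matrix

/-- Let `W` be a Weil cohomology for the smooth projective connected varieties over the fields
`F 0 ⊂ F 1 ⊂ …`, where `F n` is the algebraic closure of the field of rational functions in `n`
variables over the prime field of characteristic `p`, in which the Künneth projectors of the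
varieties over `F 0` are algebraic (Katz and Messing).

(a) Let `V` be a variety over `F 0`, let `L` be ample on `V`, and let `T` be a generic complete
intersection of odd dimension, of `r` members of the linear systems of large multiples of `L`. The
following are equivalent: the sign conjecture `C⁺(T)`; for all `n` the numerically trivial
correspondences from `T ^ n` to `T ^ n` are nilpotent modulo homological equivalence; for `2n` at
most `dim H(T) + 2` there are no phantoms in the motive of `T ^ n`.

(b) Let `Z` be a variety over `F 0` and `i < dim Z`. If there are no phantoms in the motives of the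
powers `T ^ n`, `2n ≤ dim H(T) + 2`, of one generic complete intersection `T`, of dimension
`2i + 1`, of members of the linear systems of multiples of `L ⊗ 1 + 1 ⊗ L` on `Z × Z`, for some
ample `L`, then `Bᵢ(Z)` holds.

(c) Suppose that generic complete intersections of odd dimension exist, for all varieties over
`F 0`. Then the following are equivalent, for one variety `Z` over `F 0`: the Lefschetz standard
conjecture `B(Z)`; the Künneth conjecture `C(T)` for all smooth complete intersections `T` in
`Z × Z`; for all generic complete intersections `T` of odd dimension in `Z × Z` and all `n` the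
numerically trivial correspondences from `T ^ n` to `T ^ n` are nilpotent; for these `T` and
`2n ≤ dim H(T) + 2` there are no phantoms in the motive of `T ^ n`; the condition of (b) holds for
all `i < dim Z`.

(d) Suppose moreover that every variety over `F (n + 1)` is the geometric generic fibre of a family
over a curve over `F n`, with the properties of `Models`. The following are equivalent: `C⁺(X)` for
all `X` over all `F n`; for all `X` the numerically trivial correspondences from `X` to `X` are
nilpotent; there are no phantoms; `B(Z)` for all `Z` over `F 0`; `C(X)` and `B(X)` for all `X`. -/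
theorem draft (hCPW : T_CPW) (hNIL : T_NIL) (hLOC : T_LOC)
    {K : Type} [Field K] [CharZero K] (W : Weil K) (hW : W.Theory) :
    (∀ (V : W.Var 0) (L : W.Hom V V), L ∈ W.Lef V → ∀ (r m : ℕ) (T : W.Var m)
      (S : W.Symplectic V L r T),
      List.TFAE [
        W.Cplus T,
        ∀ n : ℕ, W.Nilpotence (S.powers.pow n),
        ∀ n : ℕ, 2 * n ≤ W.rk T + 2 → W.NoPhantom (S.powers.pow n)]) ∧
    (∀ (Z : W.Var 0) (i : ℕ), i < W.dim Z →
      (∃ L ∈ W.Lef Z, ∃ (m : ℕ) (T : W.Var m)
        (S : W.Symplectic (W.prod Z Z) (W.box L L) (2 * (W.dim Z - i) - 1) T),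
        ∀ n : ℕ, 2 * n ≤ W.rk T + 2 → W.NoPhantom (S.powers.pow n)) → W.BDeg Z i) ∧
    (W.OddSections → ∀ Z : W.Var 0,
      List.TFAE [
        W.B Z,
        ∀ (m : ℕ) (T : W.Var m), W.IsIntersection (W.prod Z Z) T → W.C T,
        ∀ L ∈ W.Lef (W.prod Z Z), ∀ (r m : ℕ) (T : W.Var m)
          (S : W.Symplectic (W.prod Z Z) L r T) (n : ℕ), W.Nilpotence (S.powers.pow n),
        ∀ L ∈ W.Lef (W.prod Z Z), ∀ (r m : ℕ) (T : W.Var m)
          (S : W.Symplectic (W.prod Z Z) L r T) (n : ℕ), 2 * n ≤ W.rk T + 2 →
          W.NoPhantom (S.powers.pow n),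
        ∀ i < W.dim Z, ∃ L ∈ W.Lef Z, ∃ (m : ℕ) (T : W.Var m)
          (S : W.Symplectic (W.prod Z Z) (W.box L L) (2 * (W.dim Z - i) - 1) T),
          ∀ n : ℕ, 2 * n ≤ W.rk T + 2 → W.NoPhantom (S.powers.pow n)]) ∧
    (W.OddSections → W.Models →
      List.TFAE [
        ∀ (n : ℕ) (X : W.Var n), W.Cplus X,
        ∀ (n : ℕ) (X : W.Var n), W.Nilpotence X,
        ∀ (n : ℕ) (X : W.Var n), W.NoPhantom X,
        ∀ Z : W.Var 0, W.B Z,
        ∀ (n : ℕ) (X : W.Var n), W.C X ∧ W.B X]) :=
  ⟨fun _ _ hL _ _ _ S => loc_tfae hCPW hNIL hLOC W hW hL S,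
    bdeg_of_noPhantom hCPW hNIL hLOC W hW,
    b_tfae hCPW hNIL hLOC W hW, global_tfae hCPW hNIL hLOC W hW⟩

end Pool.Agent.H64.NLW
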