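import Pool.Agent.H2.NL.Targets2
import Pool.Agent.H64.CC.Prod
import Pool.Agent.H64.CC.Main

/-!
# The theorem on nilpotence, from the rows
-/

set_option autoImplicit false

open Matrix Pool.Agent.H64.CC Pool.Agent.H2.NL

namespace Pool.Agent.H64.NLW

section

variable (hCPW : T_CPW) (hNIL : T_NIL) (hLOC : T_LOC)
variable {K : Type} [Field K] [CharZero K] (W : Weil K) (hW : W.Theory)

include hCPW hNIL hLOC hW in
/-- one generic complete intersection -/
theorem loc_tfae {V : W.Var 0} {L : W.Hom V V} (hL : L ∈ W.Lef V) {r m : ℕ} {T : W.Var m}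
    (S : W.Symplectic V L r T) :
    List.TFAE [
      W.Cplus T,
      ∀ n : ℕ, W.Nilpotence (S.powers.pow n),
      ∀ n : ℕ, 2 * n ≤ W.rk T + 2 → W.NoPhantom (S.powers.pow n)] := by
  tfae_have 1 → 2 := fun h n =>
    (hNIL K W hW m (S.powers.pow n)).1 (hCPW K W hW m T S.powers h n)
  tfae_have 2 → 3 := fun h n _ => (hNIL K W hW m (S.powers.pow n)).2 (h n)
  tfae_have 3 → 1 := fun h => hLOC K W hW V L hL r m T S h
  tfae_finish

include hCPW hNIL hLOC hW in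
/-- one degree of one variety over `F 0` -/
theorem bdeg_of_noPhantom (Z : W.Var 0) (i : ℕ) (hi : i < W.dim Z)
    (h : ∃ L ∈ W.Lef Z, ∃ (m : ℕ) (T : W.Var m)
      (S : W.Symplectic (W.prod Z Z) (W.box L L) (2 * (W.dim Z - i) - 1) T),
      ∀ n : ℕ, 2 * n ≤ W.rk T + 2 → W.NoPhantom (S.powers.pow n)) : W.BDeg Z i := by
  obtain ⟨L, hL, m, T, S, h⟩ := h
  refine (point W hW Z i hi).1 ⟨L, hL, m, T, ⟨S.toGenericIntersection⟩, ?_⟩
  exact ((loc_tfae hCPW hNIL hLOC W hW (hW.lefschetz.box_mem Z Z L hL L hL) S).out 2 0).1 h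

include hW in
theorem sign_exists' (hO : W.OddSections) (Z : W.Var 0) (i : ℕ) (hi : i < W.dim Z) :
    ∃ L ∈ W.Lef Z, ∃ (m : ℕ) (T : W.Var m),
      Nonempty (W.Symplectic (W.prod Z Z) (W.box L L) (2 * (W.dim Z - i) - 1) T) := by
  obtain ⟨L, hL⟩ := hW.lefschetz.nonempty Z
  have hd : W.dim (W.prod Z Z) = W.dim Z + W.dim Z := hW.products.dim_prod Z Z
  obtain ⟨m, T, hT⟩ := hO (W.prod Z Z) (W.box L L) (hW.lefschetz.box_mem Z Z L hL L hL)
    (2 * (W.dim Z - i) - 1) (by omega) (by omega) ⟨i, by omega⟩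
  exact ⟨L, hL, m, T, hT⟩

include hCPW hNIL hLOC hW in
/-- one variety over `F 0` -/
theorem b_tfae (hO : W.OddSections) (Z : W.Var 0) :
    List.TFAE [
      W.B Z,
      ∀ (m : ℕ) (T : W.Var m), W.IsIntersection (W.prod Z Z) T → W.C T,
      ∀ L ∈ W.Lef (W.prod Z Z), ∀ (r m : ℕ) (T : W.Var m) (S : W.Symplectic (W.prod Z Z) L r T)
        (n : ℕ), W.Nilpotence (S.powers.pow n),
      ∀ L ∈ W.Lef (W.prod Z Z), ∀ (r m : ℕ) (T : W.Var m) (S : W.Symplectic (W.prod Z Z) L r T)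
        (n : ℕ), 2 * n ≤ W.rk T + 2 → W.NoPhantom (S.powers.pow n),
      ∀ i < W.dim Z, ∃ L ∈ W.Lef Z, ∃ (m : ℕ) (T : W.Var m)
        (S : W.Symplectic (W.prod Z Z) (W.box L L) (2 * (W.dim Z - i) - 1) T),
        ∀ n : ℕ, 2 * n ≤ W.rk T + 2 → W.NoPhantom (S.powers.pow n)] := by
  tfae_have 1 → 2 := by
    rintro hB m T ⟨L, hL, r, -, ⟨S⟩⟩
    exact c_of_b (toTheory W hW) Z ((b_iff W hW Z).2 hB) hL (int W hW S)
  tfae_have 2 → 3 := by
    intro h L hL r m T S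
    have hd : W.dim (W.prod Z Z) = W.dim Z + W.dim Z := hW.products.dim_prod Z Z
    have hr : 1 ≤ r := by
      have h1 := S.dim_eq
      obtain ⟨k, hk⟩ := S.odd
      omega
    have hC : W.C T := h m T ⟨L, hL, r, hr, ⟨S.toIntersection⟩⟩
    have hP : W.Cplus T := cplus_of_c (toTheory W hW) T hC
    exact ((loc_tfae hCPW hNIL hLOC W hW hL S).out 0 1).1 hP
  tfae_have 3 → 4 := fun h L hL r m T S n _ =>
    (hNIL K W hW m (S.powers.pow n)).2 (h L hL r m T S n)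
  tfae_have 4 → 5 := by
    intro h i hi
    obtain ⟨L, hL, m, T, ⟨S⟩⟩ := sign_exists' W hW hO Z i hi
    exact ⟨L, hL, m, T, S, h _ (hW.lefschetz.box_mem Z Z L hL L hL) _ m T S⟩
  tfae_have 5 → 1 := by
    intro h
    refine (b_iff W hW Z).1 (b_of_bdeg (toTheory W hW) Z fun i hi => ?_)
    exact (bdeg_iff W hW Z i).2 (bdeg_of_noPhantom hCPW hNIL hLOC W hW Z i hi (h i hi))
  tfae_finish

include hCPW hNIL hLOC hW in
/-- the global form -/
theorem global_tfae (hO : W.OddSections) (hM : W.Models) :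
    List.TFAE [
      ∀ (n : ℕ) (X : W.Var n), W.Cplus X,
      ∀ (n : ℕ) (X : W.Var n), W.Nilpotence X,
      ∀ (n : ℕ) (X : W.Var n), W.NoPhantom X,
      ∀ Z : W.Var 0, W.B Z,
      ∀ (n : ℕ) (X : W.Var n), W.C X ∧ W.B X] := by
  tfae_have 1 → 2 := fun h n X => (hNIL K W hW n X).1 (h n X)
  tfae_have 2 → 3 := fun h n X => (hNIL K W hW n X).2 (h n X)
  tfae_have 3 → 4 := by
    intro h Z
    refine ((b_tfae hCPW hNIL hLOC W hW hO Z).out 4 0).1 fun i hi => ?_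
    obtain ⟨L, hL, m, T, ⟨S⟩⟩ := sign_exists' W hW hO Z i hi
    exact ⟨L, hL, m, T, S, fun n _ => h m _⟩
  tfae_have 4 → 5 := by
    intro h n
    induction n with
    | zero => exact fun X => ⟨fun i => hW.katzMessing X i, h X⟩
    | succ n ih =>
      intro X
      have h1 := tSTP K (toTheory W hW) (models_to W hW hM) n X
        fun V _ => ⟨(ih V).1, (b_iff W hW V).2 (ih V).2⟩
      exact ⟨h1.1, (b_iff W hW X).1 h1.2⟩
  tfae_have 5 → 1 := fun h n X => cplus_of_c (toTheory W hW) X (h n X).1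
  tfae_finish

end

end Pool.Agent.H64.NLW
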