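import Pool.Agent.H64.NLW.Uncond

/-!
# The theorem with the sign conjecture modulo numerical equivalence, from the rows
-/

set_option autoImplicit false

open Matrix Pool.Agent.H64.CC Pool.Agent.H2.NL

namespace Pool.Agent.H64.NLW

section

variable (hCPW : T_CPW) (hNIL : T_NIL) (hLOC : T_LOC)
variable {K : Type} [Field K] [CharZero K] (W : Weil K) (hW : W.Theory)

include hCPW hNIL hLOC hW in
/-- one generic complete intersection -/
theorem loc_tfae2 {V : W.Var 0} (t : W.Transposition V) {L : W.Hom V V} (hL : L ∈ W.Lef V)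
    {r m : ℕ} (hr : 1 ≤ r) {T : W.Var m} (S : W.Symplectic V L r T) :
    List.TFAE [
      W.Cplus T,
      ∀ n : ℕ, W.NumCplus (S.powers.pow n),
      ∀ n : ℕ, W.Nilpotence (S.powers.pow n),
      ∀ n : ℕ, 2 * n ≤ W.rk T + 2 → W.NoPhantom (S.powers.pow n),
      ∀ j < W.dim T, Even j → W.LeftInverse V L r j,
      ∀ j < W.dim T, Even j → W.NumInjective V L r j] := by
  have h0 := cplus_crit W hW t hL S.toGenericIntersection hr
  have hodd : ¬ Even (W.dim T) := Nat.not_even_iff_odd.2 S.odd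
  have key : ∀ j : ℕ, ¬ (Even j ↔ Even (W.dim T)) ↔ Even j := by
    intro j
    constructor
    · intro h
      by_contra hj
      exact h ⟨fun h1 => absurd h1 hj, fun h1 => absurd h1 hodd⟩
    · exact fun h h1 => hodd (h1.1 h)
  tfae_have 1 → 2 := fun h n =>
    numCplus_of_cplus W (S.powers.pow n) (hCPW K W hW m T S.powers h n)
  tfae_have 2 → 3 := fun h n => nilpotence_of_numCplus W hW (S.powers.pow n) (h n)
  tfae_have 3 → 4 := fun h n _ => (hNIL K W hW m (S.powers.pow n)).2 (h n)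
  tfae_have 4 → 1 := fun h => hLOC K W hW V L hL r m T S h
  tfae_have 1 ↔ 5 := by
    refine Iff.trans (h0.out 0 2) ?_
    exact forall_congr' fun j => forall_congr' fun _ => imp_congr (key j) Iff.rfl
  tfae_have 1 ↔ 6 := by
    refine Iff.trans (h0.out 0 3) ?_
    exact forall_congr' fun j => forall_congr' fun _ => imp_congr (key j) Iff.rfl
  tfae_finish

include hCPW hNIL hLOC hW in
/-- one variety over `F 0` -/
theorem b_tfae2 (hO : W.OddSections) (Z : W.Var 0) :
    List.TFAE [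
      W.B Z,
      ∀ (m : ℕ) (T : W.Var m), W.IsIntersection (W.prod Z Z) T → W.C T,
      ∀ L ∈ W.Lef (W.prod Z Z), ∀ (r m : ℕ) (T : W.Var m) (S : W.Symplectic (W.prod Z Z) L r T)
        (n : ℕ), W.NumCplus (S.powers.pow n),
      ∀ L ∈ W.Lef (W.prod Z Z), ∀ (r m : ℕ) (T : W.Var m) (S : W.Symplectic (W.prod Z Z) L r T)
        (n : ℕ), W.Nilpotence (S.powers.pow n),
      ∀ i < W.dim Z, ∃ L ∈ W.Lef Z, ∃ (m : ℕ) (T : W.Var m)
        (S : W.Symplectic (W.prod Z Z) (W.box L L) (2 * (W.dim Z - i) - 1) T),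
        ∀ n : ℕ, 2 * n ≤ W.rk T + 2 → W.NoPhantom (S.powers.pow n)] := by
  have h0 := b_tfae hCPW hNIL hLOC W hW hO Z
  tfae_have 1 ↔ 2 := h0.out 0 1
  tfae_have 1 ↔ 4 := h0.out 0 2
  tfae_have 1 ↔ 5 := h0.out 0 4
  tfae_have 3 → 4 := fun h L hL r m T S n =>
    nilpotence_of_numCplus W hW (S.powers.pow n) (h L hL r m T S n)
  tfae_have 4 → 3 := by
    intro h L hL r m T S n
    have h1 : W.Cplus T := ((loc_tfae hCPW hNIL hLOC W hW hL S).out 1 0).1 (h L hL r m T S)
    exact numCplus_of_cplus W (S.powers.pow n) (hCPW K W hW m T S.powers h1 n)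
  tfae_finish

include hCPW hNIL hLOC hW in
/-- the global form -/
theorem global_tfae2 (hO : W.OddSections) (hM : W.Models) :
    List.TFAE [
      ∀ (n : ℕ) (X : W.Var n), W.Cplus X,
      ∀ (n : ℕ) (X : W.Var n), W.NumC X,
      ∀ (n : ℕ) (X : W.Var n), W.NumCplus X,
      ∀ (n : ℕ) (X : W.Var n), W.Nilpotence X,
      ∀ (n : ℕ) (X : W.Var n), W.NoPhantom X,
      ∀ Z : W.Var 0, W.B Z,
      ∀ (n : ℕ) (X : W.Var n), W.C X ∧ W.B X] := by
  have h0 := global_tfae hCPW hNIL hLOC W hW hO hM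
  tfae_have 7 → 2 := fun h n X => numC_of_c W X (h n X).1
  tfae_have 2 → 3 := fun h n X => numCplus_of_numC W hW X (h n X)
  tfae_have 3 → 4 := fun h n X => nilpotence_of_numCplus W hW X (h n X)
  tfae_have 1 ↔ 4 := h0.out 0 1
  tfae_have 1 ↔ 5 := h0.out 0 2
  tfae_have 1 ↔ 6 := h0.out 0 3
  tfae_have 1 ↔ 7 := h0.out 0 4
  tfae_finish

end

end Pool.Agent.H64.NLW
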