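import Pool.Agent.H64.NLW.Final
import Pool.Agent.H64.CC.Ind

/-!
# The sign conjecture modulo numerical equivalence
-/

set_option autoImplicit false

open Matrix Pool.Agent.H64.CC Pool.Agent.H2.NL

namespace Pool.Agent.H64.CC.Weil

variable {K : Type} [Field K] [CharZero K] (W : Weil K)

/-- the sign conjecture for `X` modulo numerical equivalence: the even Künneth projector is
numerically equivalent to the class `γ` of a cycle, that is, for all algebraic correspondences `f`
of degree 0 the intersection number of `γ` and the transpose of `f`, which is the alternating trace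
of `γ f`, is the trace of `f` on the even cohomology -/
def NumCplus {n : ℕ} (X : W.Var n) : Prop :=
  ∃ γ ∈ W.cyc X X 0, ∀ f ∈ W.cyc X X 0, W.str (W.comp γ f) = W.tr (W.comp (W.even X) f)

/-- the Künneth conjecture for `X` modulo numerical equivalence: every Künneth projector is
numerically equivalent to the class `γ` of a cycle -/
def NumC {n : ℕ} (X : W.Var n) : Prop :=
  ∀ j : ℕ, ∃ γ ∈ W.cyc X X 0, ∀ f ∈ W.cyc X X 0, W.str (W.comp γ f) = W.str (W.comp (W.pj X j) f)

end Pool.Agent.H64.CC.Weil

namespace Pool.Agent.H64.NLW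

section

variable {K : Type} [Field K] [CharZero K] (W : Weil K) (hW : W.Theory)

theorem numCplus_of_cplus {n : ℕ} (X : W.Var n) (h : W.Cplus X) : W.NumCplus X := by
  refine ⟨W.even X, h, fun f _ => ?_⟩
  unfold Weil.str Weil.tr Weil.comp
  rw [Matrix.trace]
  refine Finset.sum_congr rfl fun a _ => ?_
  rw [Matrix.diag_apply]
  have h4 : (W.even X * f) a a = (if Even (W.deg X a) then 1 else 0) * f a a := by
    unfold Weil.even
    rw [Matrix.diagonal_mul]
  rw [h4]
  by_cases he : Even (W.deg X a)
  · rw [if_pos he, he.neg_one_pow, one_mul]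
  · rw [if_neg he, zero_mul, mul_zero]

include hW in
theorem nilpotence_of_numCplus {n : ℕ} (X : W.Var n) (h : W.NumCplus X) : W.Nilpotence X := by
  obtain ⟨γ, hγ, hg⟩ := h
  intro f hf hnt
  have hpow : ∀ k : ℕ, f ^ k ∈ W.cyc X X 0 := by
    intro k
    induction k with
    | zero =>
      rw [pow_zero]
      exact hW.calculus.one_mem X
    | succ k ih =>
      have h1 := hW.calculus.comp_mem X X X 0 0 f hf (f ^ k) ih
      rw [add_zero] at h1
      rw [pow_succ]
      exact h1
  have htr : ∀ k : ℕ, (f ^ (k + 1)).trace = 0 := by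
    intro k
    have h1 : W.str (f ^ k * f) = 0 := hnt (f ^ k) (hpow k)
    have h2 : W.str (γ * f ^ k * f) = 0 := by
      have h3 := hW.calculus.comp_mem X X X 0 0 (f ^ k) (hpow k) γ hγ
      rw [add_zero] at h3
      exact hnt (γ * f ^ k) h3
    rw [← pow_succ] at h1
    rw [mul_assoc, ← pow_succ] at h2
    have h5 : W.str (γ * f ^ (k + 1)) = (W.even X * f ^ (k + 1)).trace := hg _ (hpow (k + 1))
    rw [h2] at h5
    have h3 : (f ^ (k + 1)).trace = 2 * (W.even X * f ^ (k + 1)).trace - W.str (f ^ (k + 1)) := by
      unfold Weil.str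
      rw [Matrix.trace, Matrix.trace, Finset.mul_sum, ← Finset.sum_sub_distrib]
      refine Finset.sum_congr rfl fun a _ => ?_
      rw [Matrix.diag_apply, Matrix.diag_apply]
      have h4 : (W.even X * f ^ (k + 1)) a a = (if Even (W.deg X a) then 1 else 0) *
          (f ^ (k + 1)) a a := by
        unfold Weil.even
        rw [Matrix.diagonal_mul]
      rw [h4]
      by_cases he : Even (W.deg X a)
      · rw [if_pos he, he.neg_one_pow]
        ring
      · rw [if_neg he, (Nat.not_even_iff_odd.1 he).neg_one_pow]
        ring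
    rw [h3, h1, ← h5]
    ring
  obtain ⟨N, hN⟩ := nil_of_trace f htr
  exact ⟨N, hN⟩

end

end Pool.Agent.H64.NLW
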