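import Pool.Agent.H2.NL.Targets

/-!
# Targets: from the powers of a generic complete intersection to the abstract system
-/

set_option autoImplicit false

open Matrix Pool.Agent.H64.CC Pool.Agent.H2.NL

namespace Pool.Agent.H64.NLW

/-! ### Tensors -/

/-- the endomorphism given by a tensor of order two -/
def en {K : Type} [Field K] {I : Type} [Fintype I] (η : Matrix I I K) (t : List I → K) :
    Matrix I I K := Matrix.of fun a b => ∑ c, t [a, c] * η c b

/-- ENO: the endomorphism of a tensor of order two, in the two forms; the identity; products;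
transposes; parity -/
def T_ENO : Prop := ∀ (K : Type) [Field K] [CharZero K] (I : Type) [Fintype I] [DecidableEq I]
  (o : I → Bool) (η : Matrix I I K) (A : ℕ → Submodule ℚ (List I → K)), Calc o η η⁻¹ A →
  IsUnit η → (∀ a b, η a b = ks K (o a) (o b) * η b a) → (∀ a b, η a b ≠ 0 → o a = o b) →
  (∀ t a b, opw η 1 t [a] [b] = en η t a b) ∧
  en η (two η⁻¹) = 1 ∧
  (∀ t ∈ A 1, ∀ t' ∈ A 1, ∃ t'' ∈ A 1, en η t * en η t' = en η t'') ∧
  (∀ t ∈ A 1, (en η t)ᵀ * η = η * en η (sw o 0 t)) ∧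
  (∀ t ∈ A 1, ∀ a b, en η t a b ≠ 0 → o a = o b) ∧
  (∀ t ∈ A 1, ∀ t' : List I → K, en η t = en η t' → t' ∈ A 1)

/-- PFF: the image of a tensor under a linear map -/
def T_PFF : Prop := ∀ (K : Type) [Field K] (I J : Type) [Fintype I] [Fintype J] (o : I → Bool)
  (o' : J → Bool) (j : Matrix I J K), (∀ a x, j a x ≠ 0 → o a = o' x) →
  (∀ (k : ℕ) (t : List J → K) (w : List I), k + 2 ≤ w.length →
    sw o k (pf j t) w = pf j (sw o' k t) w) ∧
  (∀ (n : ℕ) (t t' : List J → K) (w : List I), n ≤ w.length →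
    tp n (pf j t) (pf j t') w = pf j (tp n t t') w) ∧
  (∀ (t t' : List J → K) (n : ℕ), (∀ w, w.length = n → t w = t' w) →
    ∀ w : List I, w.length = n → pf j t w = pf j t' w) ∧
  (∀ s : Matrix J J K, pf j (two s) = two (j * s * jᵀ)) ∧
  (∀ (η : Matrix I I K) (k : ℕ) (t : List J → K) (w : List I), k ≤ w.length →
    con η k (pf j t) w = pf j (con (jᵀ * η * j) k t) w)

/-- PFC: compositions, and derivations -/
def T_PFC : Prop := ∀ (K : Type) [Field K] (I J R : Type) [Fintype I] [Fintype J] [Fintype R]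
  (j : Matrix I J K) (i : Matrix R I K),
  (∀ t : List J → K, pf i (pf j t) = pf (i * j) t) ∧
  (∀ (D : Matrix I I K) (D' : Matrix J J K) (t : List J → K), D * j = j * D' →
    der D (pf j t) = pf j (der D' t)) ∧
  (∀ (D D' : Matrix J J K) (c : K) (t : List J → K),
    der (c • D + D') t = c • der D t + der D' t)

/-- PF1: the identity -/
def T_PF1 : Prop := ∀ (K : Type) [Field K] (J : Type) [Fintype J] [DecidableEq J]
  (t : List J → K), pf (1 : Matrix J J K) t = t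

/-- SLT: the operation of a correspondence on all factors -/
def T_SLT : Prop := ∀ (K : Type) [Field K] [CharZero K] (I : Type) [Fintype I] [DecidableEq I]
  (o : I → Bool) (η : Matrix I I K) (A : ℕ → Submodule ℚ (List I → K)), Calc o η η⁻¹ A →
  IsUnit η → (∀ a b, η a b = ks K (o a) (o b) * η b a) → (∀ a b, η a b ≠ 0 → o a = o b) →
  ∀ t ∈ A 1, ∀ (k : ℕ), ∀ y ∈ A k, pf (en η t) y ∈ A k

/-- IDS: external products of correspondences -/
def T_IDS : Prop := ∀ (K : Type) [Field K] [CharZero K] (I : Type) [Fintype I] [DecidableEq I]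
  (o : I → Bool) (η : Matrix I I K) (A : ℕ → Submodule ℚ (List I → K)), Calc o η η⁻¹ A →
  IsUnit η → (∀ a b, η a b = ks K (o a) (o b) * η b a) → (∀ a b, η a b ≠ 0 → o a = o b) →
  ∀ s : Matrix I I K, two s ∈ A 1 → ∀ l : ℕ, idt s l ∈ A l ∧ op η l (idt s l) = Jm (s * η) l

/-- OPJ: the endomorphisms of the powers -/
def T_OPJ : Prop := ∀ (K : Type) [Field K] (I J : Type) [Fintype I] [DecidableEq I] [Fintype J]
  [DecidableEq J] (η : Matrix I I K) (η' : Matrix J J K) (j : Matrix I J K) (p : Matrix J I K),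
  (∀ (l : ℕ) (t : List J → K), jᵀ * η = η' * p →
    op η l (pf j t) = Jm j l * op η' l t * Jm p l) ∧
  (p * j = 1 → ∀ l : ℕ, Jm p l * Jm j l = 1) ∧
  ∀ (l : ℕ) (t : List I → K), pᵀ * η' = η * j → op η' l (pf p t) = Jm p l * op η l t * Jm j l

/-! ### Linear algebra -/

/-- MID: a self-adjoint idempotent of maximal rank -/
def T_MID : Prop := ∀ (K : Type) [Field K] [CharZero K] (I : Type) [Fintype I] [DecidableEq I]
  (J : Submodule ℚ (Matrix I I K)) (τ : Matrix I I K →ₗ[K] Matrix I I K),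
  (∀ a ∈ J, ∀ b ∈ J, a * b ∈ J) → (∀ a ∈ J, τ a ∈ J) → (∀ a b, τ (a * b) = τ b * τ a) →
  (∀ a, (τ a).trace = a.trace) → (∀ a ∈ J, τ (τ a) = a) →
  (∀ a ∈ J, ∀ k : ℕ, ∃ c : ℚ, (a ^ (k + 1)).trace = (c : K)) →
  ∃ e ∈ J, e * e = e ∧ τ e = e ∧
    ∀ x ∈ J, e * x = 0 → x * e = 0 → ∃ k : ℕ, x ^ k = 0

/-- SPB: a symplectic basis of the range of a self-adjoint idempotent -/
def T_SPB : Prop := ∀ (K : Type) [Field K] [CharZero K] (I : Type) [Fintype I] [DecidableEq I]
  (η Q : Matrix I I K), IsUnit η → Q * Q = Q → Qᵀ * η = η * Q → (Qᵀ * η * Q)ᵀ = -(Qᵀ * η * Q) →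
  ∃ (s : Type) (_ : Fintype s) (_ : DecidableEq s) (j : Matrix I (s ⊕ s) K)
    (p : Matrix (s ⊕ s) I K), p * j = 1 ∧ j * p = Q ∧
    jᵀ * η * j = Matrix.fromBlocks 0 1 (-1) 0

/-- HEB: a hyperbolic basis -/
def T_HEB : Prop := ∀ (K : Type) [Field K] [CharZero K] (I : Type) [Fintype I] [DecidableEq I]
  (η Q Q' : Matrix I I K), IsUnit η → Q * Q = Q → Q' * Q' = Q' → Q * Q' = 0 → Q' * Q = 0 →
  Qᵀ * η = η * Q' → Q'ᵀ * η = η * Q → ((Q + Q')ᵀ * η * (Q + Q'))ᵀ = (Q + Q')ᵀ * η * (Q + Q') →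
  ∃ (s : Type) (_ : Fintype s) (_ : DecidableEq s) (j : Matrix I (s ⊕ s) K)
    (p : Matrix (s ⊕ s) I K), p * j = 1 ∧ j * p = Q + Q' ∧
    jᵀ * η * j = Matrix.fromBlocks 0 1 1 0

/-! ### The frame -/

/-- The properties of the powers of a generic complete intersection of odd dimension `D`, with the
projector `ε` onto the vanishing cohomology -/
structure Frame {K : Type} [Field K] [CharZero K] {I : Type} [Fintype I] [DecidableEq I]
    (d : I → ℕ) (o : I → Bool) (η : Matrix I I K) (A : ℕ → Submodule ℚ (List I → K)) (D : ℕ)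
    (ε : Matrix I I K) : Prop where
  calc' : Calc o η η⁻¹ A
  unit : IsUnit η
  par : ∀ a, o a = decide (Odd (d a))
  dual : ∀ a b, η a b ≠ 0 → d a + d b = 2 * D
  symm : ∀ a b, η a b = ks K (o a) (o b) * η b a
  oddD : Odd D
  idem : ε * ε = ε
  deg : ∀ a b, ε a b ≠ 0 → d a = D ∧ d b = D
  adj : εᵀ * η = η * ε
  mono : ∀ u, ε *ᵥ u = u → ∀ (k : ℕ), ∀ t ∈ A k, ∀ w, w.length = 2 * k →
    der (Matrix.of fun a b => u a * ∑ c, u c * η c b) t w = 0
  deg0 : ∀ t ∈ A 1, ∀ a b, en η t a b ≠ 0 → d a = d b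
  scal : ∀ t ∈ A 1, ∃ c : ℚ, en η t * ε = (c : K) • ε ∧ ε * en η t = (c : K) • ε
  rat : ∀ t ∈ A 1, en η t * ε = 0 → ∀ k : ℕ, ∃ c : ℚ, (en η t ^ (k + 1)).trace = (c : K)
  size : ∃ N : ℕ, ε.trace = (N : K) ∧
    2 * (Fintype.card I - N) ^ 2 + (Fintype.card I - N) < N

/-- the self-adjoint idempotent of maximal rank of a frame, with the class `t` -/
structure MaxIdem {K : Type} [Field K] [CharZero K] {I : Type} [Fintype I] [DecidableEq I]
    (η : Matrix I I K) (A : ℕ → Submodule ℚ (List I → K)) (ε : Matrix I I K)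
    (t : List I → K) : Prop where
  mem : t ∈ A 1
  idem : en η t * en η t = en η t
  right : en η t * ε = 0
  left : ε * en η t = 0
  adj : (en η t)ᵀ * η = η * en η t
  nil : ∀ x ∈ A 1, en η x * ε = 0 → en η t * en η x = 0 → en η x * en η t = 0 →
    ∃ k : ℕ, en η x ^ k = 0

/-- MIF: it exists -/
def T_MIF : Prop := ∀ (K : Type) [Field K] [CharZero K] (I : Type) [Fintype I] [DecidableEq I]
  (d : I → ℕ) (o : I → Bool) (η : Matrix I I K) (A : ℕ → Submodule ℚ (List I → K)) (D : ℕ)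
  (ε : Matrix I I K), Frame d o η A D ε → ∃ t, MaxIdem η A ε t

/-- the inclusion `j` and the projection `p` of the complement of the idempotent, in a hyperbolic
basis -/
structure Adapted {K : Type} [Field K] [CharZero K] {I V P : Type} [Fintype I] [DecidableEq I]
    [Fintype V] [DecidableEq V] [Fintype P] [DecidableEq P] (o : I → Bool) (η ε : Matrix I I K)
    (t : List I → K) (F : Form K (V ⊕ P)) (j : Matrix I (V ⊕ P) K)
    (p : Matrix (V ⊕ P) I K) : Prop where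
  pj : p * j = 1
  jp : j * p = 1 - en η t
  form : jᵀ * η * j = F.η
  jη : jᵀ * η = F.η * p
  pη : pᵀ * F.η = η * j
  jo : ∀ a x, j a x ≠ 0 → o a = F.o x
  po : ∀ x a, p x a ≠ 0 → F.o x = o a
  van : ∀ x : V ⊕ P, ε *ᵥ (fun a => j a x) = if x.isLeft then (fun a => j a x) else 0
  st_V : ∀ x : V, ∃ y : V, F.st (Sum.inl x) = Sum.inl y
  o_V : ∀ x : V, F.o (Sum.inl x) = true
  card : ε.trace = (Fintype.card V : K)
  card' : Fintype.card V + Fintype.card P ≤ Fintype.card I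

/-- HYP: hyperbolic bases exist -/
def T_HYP : Prop := ∀ (K : Type) [Field K] [CharZero K] (I : Type) [Fintype I] [DecidableEq I]
  (d : I → ℕ) (o : I → Bool) (η : Matrix I I K) (A : ℕ → Submodule ℚ (List I → K)) (D : ℕ)
  (ε : Matrix I I K), Frame d o η A D ε → ∀ t, MaxIdem η A ε t →
  ∃ (V P : Type) (_ : Fintype V) (_ : DecidableEq V) (_ : Fintype P) (_ : DecidableEq P)
    (F : Form K (V ⊕ P)) (j : Matrix I (V ⊕ P) K) (p : Matrix (V ⊕ P) I K),
    Adapted o η ε t F j p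

/-- PUL: the calculus of the classes with image in `A` -/
def T_PUL : Prop := ∀ (K : Type) [Field K] [CharZero K] (I V P : Type) [Fintype I]
  [DecidableEq I] [Fintype V] [DecidableEq V] [Fintype P] [DecidableEq P] (d : I → ℕ)
  (o : I → Bool) (η : Matrix I I K) (A : ℕ → Submodule ℚ (List I → K)) (D : ℕ)
  (ε : Matrix I I K), Frame d o η A D ε → ∀ t, MaxIdem η A ε t →
  ∀ (F : Form K (V ⊕ P)) (j : Matrix I (V ⊕ P) K) (p : Matrix (V ⊕ P) I K),
    Adapted o η ε t F j p → Calc F.o F.η F.ω (pull j A)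

/-- SYS: the abstract system -/
def T_SYS : Prop := ∀ (K : Type) [Field K] [CharZero K] (I V P : Type) [Fintype I]
  [DecidableEq I] [Fintype V] [DecidableEq V] [Fintype P] [DecidableEq P] (d : I → ℕ)
  (o : I → Bool) (η : Matrix I I K) (A : ℕ → Submodule ℚ (List I → K)) (D : ℕ)
  (ε : Matrix I I K), Frame d o η A D ε → ∀ t, MaxIdem η A ε t →
  ∀ (F : Form K (V ⊕ P)) (j : Matrix I (V ⊕ P) K) (p : Matrix (V ⊕ P) I K),
    Adapted o η ε t F j p → Sys F (pull j A)

/-- PHT: the transport of a phantom -/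
def T_PHT : Prop := ∀ (K : Type) [Field K] [CharZero K] (I V P : Type) [Fintype I]
  [DecidableEq I] [Fintype V] [DecidableEq V] [Fintype P] [DecidableEq P] (d : I → ℕ)
  (o : I → Bool) (η : Matrix I I K) (A : ℕ → Submodule ℚ (List I → K)) (D : ℕ)
  (ε : Matrix I I K), Frame d o η A D ε → ∀ t, MaxIdem η A ε t →
  ∀ (F : Form K (V ⊕ P)) (j : Matrix I (V ⊕ P) K) (p : Matrix (V ⊕ P) I K),
    Adapted o η ε t F j p → ∀ (l : ℕ), ∀ e ∈ pull j A l,
    op F.η l e * op F.η l e = op F.η l e → op F.η l e ≠ 0 →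
    (∀ y ∈ pull j A l,
      ∑ u : List.Vector (V ⊕ P) l, sgw K F.o u.1 * (op F.η l y * op F.η l e) u u = 0) →
    ∃ e' ∈ A l, op η l e' * op η l e' = op η l e' ∧ op η l e' ≠ 0 ∧
      ∀ y ∈ A l, ∑ u : List.Vector I l, sgw K o u.1 * (op η l y * op η l e') u u = 0

/-- ABS: the abstract theorem -/
def T_ABS : Prop := ∀ (K : Type) [Field K] [CharZero K] (I : Type) [Fintype I] [DecidableEq I]
  (d : I → ℕ) (o : I → Bool) (η : Matrix I I K) (A : ℕ → Submodule ℚ (List I → K)) (D : ℕ)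
  (ε : Matrix I I K), Frame d o η A D ε →
  (∀ l : ℕ, ∀ e ∈ A l, op η l e * op η l e = op η l e →
    (∀ y ∈ A l, ∑ u : List.Vector I l, sgw K o u.1 * (op η l y * op η l e) u u = 0) →
    op η l e = 0) →
  ∃ t ∈ A 1, en η t * ε = 0 ∧ ∀ a b, o b = false → en η t a b = if a = b then 1 else 0

/-! ### Geometry -/

/-- DEC: the cohomology is the sum of the image of the restriction and of the vanishing
cohomology -/
def T_DEC : Prop := ∀ (K : Type) [Field K] [CharZero K] (W : Weil K), W.Theory →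
  ∀ (m : ℕ) (V : W.Var 0) (L : W.Hom V V) (r : ℕ) (T : W.Var m)
    (S : W.GenericIntersection V L r T), L ∈ W.Lef V →
    (∀ x : W.H T, ∃ v : W.H V, ∃ u, W.Vanishing S u ∧ x = W.ap S.up v + u) ∧
    ∀ v : W.H V, W.Vanishing S (W.ap S.up v) → W.ap S.up v = 0

/-- EPS: the projector onto the vanishing cohomology -/
def T_EPS : Prop := ∀ (K : Type) [Field K] [CharZero K] (W : Weil K), W.Theory →
  ∀ (m : ℕ) (V : W.Var 0) (L : W.Hom V V) (r : ℕ) (T : W.Var m) (S : W.Symplectic V L r T),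
    L ∈ W.Lef V →
    ∃ ε : Matrix (Fin (W.rk T)) (Fin (W.rk T)) K, ε * ε = ε ∧
      (∀ a b, ε a b ≠ 0 → W.deg T a = W.dim T ∧ W.deg T b = W.dim T) ∧
      εᵀ * S.powers.form = S.powers.form * ε ∧
      (∀ u, ε *ᵥ u = u ↔ W.Vanishing S.toGenericIntersection u) ∧
      S.down * ε = 0 ∧ ε * S.up = 0 ∧ (∀ x, ∃ v : W.H V, x = W.ap S.up v + ε *ᵥ x) ∧
      ∃ N : ℕ, ε.trace = (N : K) ∧ W.rk T ≤ N + W.rk V

/-- GAL: the correspondences of degree zero -/
def T_GAL : Prop := ∀ (K : Type) [Field K] [CharZero K] (W : Weil K), W.Theory →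
  ∀ (m : ℕ) (V : W.Var 0) (L : W.Hom V V) (r : ℕ) (T : W.Var m) (S : W.Symplectic V L r T),
    L ∈ W.Lef V → ∀ f ∈ W.cyc T T 0, ∃ c : ℚ, ∃ g ∈ W.cyc V V (-(r : ℤ)),
      f = (c : K) • (1 : Matrix _ _ K) + S.up * g * S.down

/-- RTR: the traces of the correspondences which come from `V` are rational -/
def T_RTR : Prop := ∀ (K : Type) [Field K] [CharZero K] (W : Weil K), W.Theory →
  ∀ (m : ℕ) (V : W.Var 0) (L : W.Hom V V) (r : ℕ) (T : W.Var m)
    (G : W.Intersection V L r T), L ∈ W.Lef V → ∀ c ∈ W.cyc V V (-(r : ℤ)), ∀ k : ℕ,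
    ∃ x : ℚ, ((G.up * c * G.down) ^ (k + 1)).trace = (x : K)

/-- FRA: the frame of a generic complete intersection -/
def T_FRA : Prop := ∀ (K : Type) [Field K] [CharZero K] (W : Weil K), W.Theory →
  ∀ (m : ℕ) (V : W.Var 0) (L : W.Hom V V) (r : ℕ) (T : W.Var m) (S : W.Symplectic V L r T),
    L ∈ W.Lef V →
    ∃ ε : Matrix (Fin (W.rk T)) (Fin (W.rk T)) K,
      Frame (W.deg T) (W.par T) S.powers.form S.powers.toPowerData.classes (W.dim T) ε ∧
      ∀ f ∈ W.cyc T T 0, f * ε = 0 → ∃ c ∈ W.cyc V V (-(r : ℤ)), f = S.up * c * S.down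

/-- PHW: phantoms on the powers -/
def T_PHW : Prop := ∀ (K : Type) [Field K] [CharZero K] (W : Weil K) (m : ℕ) (T : W.Var m)
  (P : W.Powers T) (l : ℕ), W.NoPhantom (P.pow l) → ∀ e ∈ P.toPowerData.classes l,
    op P.form l e * op P.form l e = op P.form l e →
    (∀ y ∈ P.toPowerData.classes l, ∑ u : List.Vector (Fin (W.rk T)) l,
      sgw K (W.par T) u.1 * (op P.form l y * op P.form l e) u u = 0) → op P.form l e = 0

/-- CPL: the even projector -/
def T_CPL : Prop := ∀ (K : Type) [Field K] [CharZero K] (W : Weil K), W.Theory →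
  ∀ (m : ℕ) (V : W.Var 0) (L : W.Hom V V) (r : ℕ) (T : W.Var m) (G : W.Intersection V L r T),
  ∀ c ∈ W.cyc V V (-(r : ℤ)),
    (∀ a b, Even (W.deg T b) → (G.up * c * G.down) a b = if a = b then 1 else 0) → W.Cplus T

/-- CPP: the sign conjecture for the powers -/
def T_CPP : Prop := ∀ (K : Type) [Field K] [CharZero K] (W : Weil K), W.Theory → ∀ (m : ℕ)
  (T : W.Var m) (P : W.Powers T), W.Cplus T → ∀ l : ℕ, W.Cplus (P.pow l)

/-- CNI: the sign conjecture implies nilpotence, and nilpotence excludes phantoms -/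
def T_CNI : Prop := ∀ (K : Type) [Field K] [CharZero K] (W : Weil K), W.Theory →
  ∀ (n : ℕ) (X : W.Var n), (W.Cplus X → W.Nilpotence X) ∧ (W.Nilpotence X → W.NoPhantom X)

/-- LOC: the theorem for one generic complete intersection -/
def T_LOC : Prop := ∀ (K : Type) [Field K] [CharZero K] (W : Weil K), W.Theory →
  ∀ (m : ℕ) (V : W.Var 0) (L : W.Hom V V) (r : ℕ) (T : W.Var m) (S : W.Symplectic V L r T),
  L ∈ W.Lef V → List.TFAE [W.Cplus T, ∀ l, W.Nilpotence (S.powers.pow l),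
    ∀ l, W.NoPhantom (S.powers.pow l)]

/-- GLO: the theorem for the conjectures -/
def T_GLO : Prop := ∀ (K : Type) [Field K] [CharZero K] (W : Weil K), W.Theory →
  (∀ (Z : W.Var 0) (i : ℕ), i < W.dim Z → ∀ L ∈ W.Lef Z, ∀ (m : ℕ) (T : W.Var m)
    (S : W.Symplectic (W.prod Z Z) (W.box L L) (2 * (W.dim Z - i) - 1) T),
    (∀ l, W.NoPhantom (S.powers.pow l)) → W.BDeg Z i) ∧
  (W.OddSections → W.Sections → W.Models → List.TFAE [
    ∀ (n : ℕ) (X : W.Var n), W.Cplus X,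
    ∀ (n : ℕ) (X : W.Var n), W.Nilpotence X,
    ∀ (n : ℕ) (X : W.Var n), W.NoPhantom X,
    ∀ Z : W.Var 0, W.B Z,
    ∀ (n : ℕ) (X : W.Var n), W.C X ∧ W.B X])

end Pool.Agent.H64.NLW
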